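import Mathlib
import Pool.Agent.Designs.ProductConstruction
import Pool.Agent.Designs.BiplaneNot

/-!
# A flag-transitive point-imprimitive biplane that does not arise from the construction
-/

namespace Pool.Agent.Results.MP_14f8d9_co.Biplane

open Pool.Agent.Designs

/-- There is a symmetric 2-(16,6,2) design with a flag-transitive, point-imprimitive automorphism
group which does not arise from the construction. So the answer to Q1 is negative. -/
theorem result :
    ∃ I : Fin 16 → Fin 16 → Prop,
      IsSymmetricTwoDesign I 16 6 2 ∧ IsSimple I ∧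
      (∃ G : Subgroup (Equiv.Perm (Fin 16)),
        IsAutomorphismGroup I G ∧ IsFlagTransitive I G ∧ IsPointImprimitive G) ∧
      ¬ ArisesFromConstruction I := by
  refine ⟨Biplane.Inc, ⟨Biplane.isTwoDesign, by simp⟩, ?_,
    ⟨Biplane.G, Biplane.isAutomorphismGroup, Biplane.flagTransitive, Biplane.imprimitive⟩,
    Biplane.not_arises⟩
  intro b b' h
  apply Biplane.simple'
  intro p
  have : p ∈ {p | Biplane.Inc p b} ↔ p ∈ {p | Biplane.Inc p b'} := by
    simp only [] at h
    rw [h]
  exact this

end Pool.Agent.Results.MP_14f8d9_co.Biplane
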